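import Pool.Agent.Q64.VP.Stm
import Pool.Agent.Helper486.TP.NewtonLap

/-! # VP-CK3: the truncated fundamental solution for `N ≥ 3` -/

set_option autoImplicit false

open MeasureTheory Filter Topology Set Metric
open scoped ENNReal NNReal ContDiff Laplacian

namespace Pool.Agent.Q39.VP.CK3

open Pool.Agent.Helper486.TP (newton newton_toReal newton_laplacian nl_lap_eq int_parts lap_cont
  lap_supp rpow_intOn)
open Pool.Agent.Q64.VP (E kk CK S_CK3)

lemma rad_D {n : ℕ} (s : ℝ → ℝ) (hs : ContDiff ℝ ∞ s) (a y : E n) (i : Fin n) :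
    fderiv ℝ (fun z : E n => s (‖z - a‖ ^ 2)) y (EuclideanSpace.basisFun (Fin n) ℝ i)
      = 2 * ((y i - a i) * deriv s (‖y - a‖ ^ 2)) := by
  have h1 : HasFDerivAt (fun y : E n => y - a) (ContinuousLinearMap.id ℝ (E n)) y :=
    (hasFDerivAt_id y).sub_const a
  have h2 : HasFDerivAt (fun y : E n => ‖y - a‖ ^ 2) (2 • (innerSL ℝ (y - a))) y := by
    simpa using h1.norm_sq
  have h3 : HasDerivAt s (deriv s (‖y - a‖ ^ 2)) (‖y - a‖ ^ 2) :=
    ((hs.differentiable (by simp)) _).hasDerivAt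
  have h4 := (h3.comp_hasFDerivAt y h2).fderiv
  have h5 : fderiv ℝ (fun z : E n => s (‖z - a‖ ^ 2)) y = _ := h4
  rw [h5]
  simp [real_inner_comm, EuclideanSpace.inner_single_left, EuclideanSpace.inner_single_right]
  ring

lemma rad_DD {n : ℕ} (s : ℝ → ℝ) (hs : ContDiff ℝ ∞ s) (a y : E n) (i : Fin n) :
    fderiv ℝ (fun z => fderiv ℝ (fun z : E n => s (‖z - a‖ ^ 2)) z
        (EuclideanSpace.basisFun (Fin n) ℝ i)) y (EuclideanSpace.basisFun (Fin n) ℝ i)
      = 2 * (deriv s (‖y - a‖ ^ 2) + 2 * (y i - a i) ^ 2 * deriv (deriv s) (‖y - a‖ ^ 2)) := by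
  have h0 : (fun z => fderiv ℝ (fun z : E n => s (‖z - a‖ ^ 2)) z
      (EuclideanSpace.basisFun (Fin n) ℝ i))
      = fun z : E n => 2 * ((z i - a i) * deriv s (‖z - a‖ ^ 2)) := by
    ext z; exact rad_D s hs a z i
  rw [h0]
  have hs' : ContDiff ℝ ∞ (deriv s) := (contDiff_infty_iff_deriv.1 hs).2
  have h1' : HasFDerivAt (fun y : E n => y - a) (ContinuousLinearMap.id ℝ (E n)) y :=
    (hasFDerivAt_id y).sub_const a
  have h2' : HasFDerivAt (fun y : E n => ‖y - a‖ ^ 2) (2 • (innerSL ℝ (y - a))) y := by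
    simpa using h1'.norm_sq
  have h3' : HasDerivAt (deriv s) (deriv (deriv s) (‖y - a‖ ^ 2)) (‖y - a‖ ^ 2) :=
    ((hs'.differentiable (by simp)) _).hasDerivAt
  have h1 := h3'.comp_hasFDerivAt y h2'
  have h2 : HasFDerivAt (fun z : E n => z i - a i) (EuclideanSpace.proj i : E n →L[ℝ] ℝ) y := by
    exact (EuclideanSpace.proj i : E n →L[ℝ] ℝ).hasFDerivAt.sub_const (a i)
  have h3 := (h2.mul h1).const_mul 2
  have h4 := h3.fderiv
  have h5 : fderiv ℝ (fun z : E n => 2 * ((z i - a i) * deriv s (‖z - a‖ ^ 2))) y = _ := h4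
  rw [h5]
  simp [EuclideanSpace.inner_single_right]
  ring

lemma rad_smooth {n : ℕ} (s : ℝ → ℝ) (hs : ContDiff ℝ ∞ s) (a : E n) :
    ContDiff ℝ ∞ (fun z : E n => s (‖z - a‖ ^ 2)) :=
  hs.comp ((contDiff_id.sub contDiff_const).norm_sq ℝ)

lemma rad_lap {n : ℕ} (s : ℝ → ℝ) (hs : ContDiff ℝ ∞ s) (a y : E n) :
    (Δ (fun z : E n => s (‖z - a‖ ^ 2))) y
      = 4 * ‖y - a‖ ^ 2 * deriv (deriv s) (‖y - a‖ ^ 2) + 2 * n * deriv s (‖y - a‖ ^ 2) := by
  rw [nl_lap_eq (rad_smooth s hs a)]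
  simp_rw [rad_DD s hs a y]
  have h1 : ∑ i, (y i - a i) ^ 2 = ‖y - a‖ ^ 2 := by
    rw [EuclideanSpace.norm_sq_eq]
    apply Finset.sum_congr rfl
    intro i _
    simp
  rw [← Finset.mul_sum, Finset.sum_add_distrib, ← Finset.sum_mul, ← Finset.mul_sum, h1]
  simp only [Finset.sum_const, Finset.card_univ, Fintype.card_fin, nsmul_eq_mul]
  ring

lemma green' {n : ℕ} {f φ : E n → ℝ} (hf : ContDiff ℝ ∞ f) (hφ : ContDiff ℝ ∞ φ)
    (hs : HasCompactSupport φ) : ∫ y, f y * (Δ φ) y = ∫ y, (Δ f) y * φ y := by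
  have hD : ∀ {ψ : E n → ℝ}, ContDiff ℝ ∞ ψ → ∀ v : E n, ContDiff ℝ ∞ (fun z => fderiv ℝ ψ z v) := by
    intro ψ h v
    exact (h.fderiv_right (m := ∞) (by norm_cast)).clm_apply contDiff_const
  simp_rw [nl_lap_eq hf, nl_lap_eq hφ, Finset.mul_sum, Finset.sum_mul]
  rw [integral_finset_sum, integral_finset_sum]
  · apply Finset.sum_congr rfl
    intro i _
    set v := EuclideanSpace.basisFun (Fin n) ℝ i
    rw [int_parts f (fun z => fderiv ℝ φ z v) (hf.of_le (by norm_cast))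
      ((hD hφ v).of_le (by norm_cast)) (hs.fderiv_apply (𝕜 := ℝ) v) v]
    rw [int_parts (fun z => fderiv ℝ f z v) φ ((hD hf v).of_le (by norm_cast))
      (hφ.of_le (by norm_cast)) hs v]
    ring
  · intro i _
    refine Continuous.integrable_of_hasCompactSupport ?_ (hs.mul_left)
    exact (hD (hD hf _) _).continuous.mul hφ.continuous
  · intro i _
    refine Continuous.integrable_of_hasCompactSupport ?_ (HasCompactSupport.mul_left ?_)
    · exact hf.continuous.mul (hD (hD hφ _) _).continuous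
    · exact (hs.fderiv_apply (𝕜 := ℝ) _).fderiv_apply (𝕜 := ℝ) _

lemma kk_eq {N : ℕ} (hN : 3 ≤ N) {t D : ℝ} (ht : 0 < t) (htD : t ≤ D) :
    kk N D t = ENNReal.ofReal (1 / ((N : ℝ) - 2) * (t ^ (2 - (N : ℝ)) - D ^ (2 - (N : ℝ)))) := by
  have hN' : (3 : ℝ) ≤ N := by exact_mod_cast hN
  have h0 : (0 : ℝ) ∉ Set.uIcc t D := by
    rw [Set.uIcc_of_le htD]
    intro h
    exact absurd h.1 (not_le.2 ht)
  have hii : IntervalIntegrable (fun s : ℝ => s ^ (1 - (N : ℝ))) volume t D :=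
    intervalIntegral.intervalIntegrable_rpow (Or.inr h0)
  have hint : IntegrableOn (fun s : ℝ => s ^ (1 - (N : ℝ))) (Ioo t D) :=
    ((intervalIntegrable_iff_integrableOn_Ioc_of_le htD).1 hii).mono_set Ioo_subset_Ioc_self
  unfold kk
  rw [← ofReal_integral_eq_lintegral_ofReal hint]
  · congr 1
    rw [← integral_Ioc_eq_integral_Ioo, ← intervalIntegral.integral_of_le htD,
      integral_rpow (Or.inr ⟨by linarith, h0⟩)]
    have h1 : 1 - (N : ℝ) + 1 = 2 - N := by ring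
    rw [h1]
    have h2 : (N : ℝ) - 2 ≠ 0 := by linarith
    have h3 : 2 - (N : ℝ) ≠ 0 := by linarith
    field_simp
    ring
  · rw [Filter.EventuallyLE, ae_restrict_iff' measurableSet_Ioo]
    refine ae_of_all _ fun s hs => ?_
    have : 0 < s := ht.trans hs.1
    change (0 : ℝ) ≤ s ^ (1 - (N : ℝ))
    positivity

/-- a smooth cut-off function of `q = ‖x‖²` -/
noncomputable def X (ρ q : ℝ) : ℝ := Real.smoothTransition (2 - 4 * q / ρ ^ 2)

lemma X_smooth (ρ : ℝ) : ContDiff ℝ ∞ (X ρ) := by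
  unfold X
  exact Real.smoothTransition.contDiff.comp (by fun_prop)

lemma X_nonneg (ρ q : ℝ) : 0 ≤ X ρ q := Real.smoothTransition.nonneg _

lemma X_le_one (ρ q : ℝ) : X ρ q ≤ 1 := Real.smoothTransition.le_one _

lemma X_one {ρ q : ℝ} (hρ : 0 < ρ) (h : q ≤ ρ ^ 2 / 4) : X ρ q = 1 := by
  apply Real.smoothTransition.one_of_one_le
  have : 4 * q / ρ ^ 2 ≤ 1 := by
    rw [div_le_one (by positivity)]
    linarith
  linarith

lemma X_zero {ρ q : ℝ} (hρ : 0 < ρ) (h : ρ ^ 2 / 2 ≤ q) : X ρ q = 0 := by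
  apply Real.smoothTransition.zero_of_nonpos
  have : 2 ≤ 4 * q / ρ ^ 2 := by
    rw [le_div_iff₀ (by positivity)]
    linarith
  linarith

/-- the smooth part of the kernel as a function of `q = ‖x‖²` -/
noncomputable def sf (N : ℕ) (ρ q : ℝ) : ℝ :=
  X ρ q * (1 / ((N : ℝ) - 2) * ρ ^ (2 - (N : ℝ))) +
    (1 - X ρ q) * (1 / ((N : ℝ) - 2) * q ^ ((2 - (N : ℝ)) / 2))

lemma sf_smooth (N : ℕ) {ρ : ℝ} (hρ : 0 < ρ) : ContDiff ℝ ∞ (sf N ρ) := by
  rw [contDiff_iff_contDiffAt]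
  intro q
  by_cases hq : 0 < q
  · have h1 : ContDiffAt ℝ ∞ (X ρ) q := (X_smooth ρ).contDiffAt
    have h2 : ContDiffAt ℝ ∞ (fun q : ℝ => q ^ ((2 - (N : ℝ)) / 2)) q :=
      Real.contDiffAt_rpow_const_of_ne hq.ne'
    exact (h1.mul contDiffAt_const).add ((contDiffAt_const.sub h1).mul (contDiffAt_const.mul h2))
  · have h : sf N ρ =ᶠ[𝓝 q] fun _ => 1 / ((N : ℝ) - 2) * ρ ^ (2 - (N : ℝ)) := by
      have hlt : q < ρ ^ 2 / 4 := lt_of_le_of_lt (not_lt.1 hq) (by positivity)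
      filter_upwards [Iio_mem_nhds hlt] with z hz
      have hz' : z ≤ ρ ^ 2 / 4 := le_of_lt hz
      simp [sf, X_one hρ hz']
    exact contDiffAt_const.congr_of_eventuallyEq h

lemma sf_harm (N : ℕ) {ρ q : ℝ} (hρ : 0 < ρ) (hq : ρ ^ 2 / 2 < q) :
    4 * q * deriv (deriv (sf N ρ)) q + 2 * N * deriv (sf N ρ) q = 0 := by
  set A : ℝ := 1 / ((N : ℝ) - 2) with hA
  set r : ℝ := (2 - (N : ℝ)) / 2 with hr
  have hq0 : 0 < q := lt_trans (by positivity) hq
  have h1 : ∀ z, ρ ^ 2 / 2 < z → sf N ρ =ᶠ[𝓝 z] fun q => A * q ^ r := by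
    intro z hz
    filter_upwards [Ioi_mem_nhds hz] with y hy
    have hy' : ρ ^ 2 / 2 ≤ y := le_of_lt hy
    simp [sf, X_zero hρ hy', hA, hr]
  have h2 : ∀ z, ρ ^ 2 / 2 < z → deriv (sf N ρ) z = A * (r * z ^ (r - 1)) := by
    intro z hz
    have hz0 : 0 < z := lt_trans (by positivity) hz
    rw [(h1 z hz).deriv_eq]
    exact ((Real.hasDerivAt_rpow_const (Or.inl hz0.ne')).const_mul A).deriv
  have h3 : deriv (sf N ρ) =ᶠ[𝓝 q] fun z => A * (r * z ^ (r - 1)) := by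
    filter_upwards [Ioi_mem_nhds hq] with z hz using h2 z hz
  have h4 : deriv (deriv (sf N ρ)) q = A * (r * ((r - 1) * q ^ (r - 1 - 1))) := by
    rw [h3.deriv_eq]
    exact (((Real.hasDerivAt_rpow_const (Or.inl hq0.ne')).const_mul r).const_mul A).deriv
  rw [h4, h2 q hq]
  have h5 : q ^ (r - 1) = q ^ (r - 1 - 1) * q := by
    rw [← Real.rpow_add_one hq0.ne']
    congr 1
    ring
  have h6 : (N : ℝ) = 2 - 2 * r := by rw [hr]; ring
  rw [h5, h6]
  ring

lemma pow_eq (N : ℕ) {t : ℝ} (ht : 0 ≤ t) : (t ^ 2) ^ ((2 - (N : ℝ)) / 2) = t ^ (2 - (N : ℝ)) := by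
  rw [← Real.rpow_natCast t 2, ← Real.rpow_mul ht]
  congr 1
  push_cast
  ring

theorem main (N : ℕ) (hN : 3 ≤ N) : ∃ c : ℝ, 0 < c ∧ CK N c := by
  obtain ⟨c₀, hc₀, hnl⟩ := newton_laplacian hN
  have hN' : (3 : ℝ) ≤ N := by exact_mod_cast hN
  set A : ℝ := 1 / ((N : ℝ) - 2) with hA
  have hA0 : 0 < A := by
    rw [hA]
    have : 0 < (N : ℝ) - 2 := by linarith
    positivity
  refine ⟨A * c₀, by positivity, fun ρ hρ => ?_⟩
  set S : ℝ → ℝ := sf N ρ with hSdef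
  have hS : ContDiff ℝ ∞ S := sf_smooth N hρ
  have hS' : ContDiff ℝ ∞ (deriv S) := (contDiff_infty_iff_deriv.1 hS).2
  have hS'' : ContDiff ℝ ∞ (deriv (deriv S)) := (contDiff_infty_iff_deriv.1 hS').2
  set B : ℝ := A * ρ ^ (2 - (N : ℝ)) with hB
  set k : E N → ℝ := fun x => max 0 (X ρ (‖x‖ ^ 2) * (A * ‖x‖ ^ (2 - (N : ℝ)) - B)) with hk
  set m : E N → ℝ := fun x =>
    -(4 * ‖x‖ ^ 2 * deriv (deriv S) (‖x‖ ^ 2) + 2 * N * deriv S (‖x‖ ^ 2)) with hm
  have hbig : ∀ x : E N, ρ ≤ ‖x‖ → ρ ^ 2 / 2 < ‖x‖ ^ 2 := by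
    intro x hx
    have h1 : ρ ^ 2 ≤ ‖x‖ ^ 2 := pow_le_pow_left₀ hρ.le hx 2
    have h2 : 0 < ρ ^ 2 := by positivity
    linarith
  have hk0 : ∀ x : E N, ρ ≤ ‖x‖ → k x = 0 := by
    intro x hx
    simp [hk, X_zero hρ (hbig x hx).le]
  have hm0 : ∀ x : E N, ρ ≤ ‖x‖ → m x = 0 := by
    intro x hx
    have := sf_harm N hρ (hbig x hx)
    simp only [hm, hSdef]
    linarith
  have hmono : ∀ a b : ℝ, 0 < a → a ≤ b → A * b ^ (2 - (N : ℝ)) ≤ A * a ^ (2 - (N : ℝ)) := by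
    intro a b ha hab
    exact mul_le_mul_of_nonneg_left
      (Real.rpow_le_rpow_of_nonpos ha hab (by linarith)) hA0.le
  have hk1 : ∀ x : E N, x ≠ 0 → k x = A * ‖x‖ ^ (2 - (N : ℝ)) - S (‖x‖ ^ 2) := by
    intro x hx
    have hx0 : 0 < ‖x‖ := norm_pos_iff.2 hx
    have h1 : 0 ≤ X ρ (‖x‖ ^ 2) * (A * ‖x‖ ^ (2 - (N : ℝ)) - B) := by
      by_cases h : ‖x‖ ≤ ρ
      · have := hmono _ _ hx0 h
        exact mul_nonneg (X_nonneg _ _) (by linarith)
      · rw [X_zero hρ (hbig x (not_le.1 h).le).le, zero_mul]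
    have h2 : S (‖x‖ ^ 2) = X ρ (‖x‖ ^ 2) * B + (1 - X ρ (‖x‖ ^ 2)) * (A * ‖x‖ ^ (2 - (N : ℝ))) := by
      simp only [hSdef, sf, pow_eq N hx0.le, hB, hA]
    rw [h2]
    simp only [hk, max_eq_right h1]
    ring
  have hkle : ∀ x : E N, x ≠ 0 → k x ≤ A * ‖x‖ ^ (2 - (N : ℝ)) := by
    intro x hx
    have hx0 : 0 < ‖x‖ := norm_pos_iff.2 hx
    have hK : 0 ≤ A * ‖x‖ ^ (2 - (N : ℝ)) := by positivity
    have hB0 : 0 ≤ B := by positivity
    refine max_le hK ?_
    have h1 := X_nonneg ρ (‖x‖ ^ 2)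
    have h2 := X_le_one ρ (‖x‖ ^ 2)
    nlinarith [mul_nonneg h1 hB0, mul_nonneg (sub_nonneg.2 h2) hK]
  have hkmeas : Measurable k := by
    refine measurable_const.max (((X_smooth ρ).continuous.measurable.comp
      (measurable_norm.pow_const 2)).mul ?_)
    exact ((measurable_norm.pow_const _).const_mul A).sub_const B
  have hne0 : ∀ᵐ x : E N, x ≠ 0 := by
    haveI : Nonempty (Fin N) := ⟨⟨0, by omega⟩⟩
    rw [ae_iff]
    simp
  have hkint : Integrable k := by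
    have h1 : Integrable (indicator (ball (0 : E N) ρ)
        (fun y : E N => A * ‖y‖ ^ (-((N : ℝ) - 2)))) :=
      (integrable_indicator_iff measurableSet_ball).2 ((rpow_intOn hN ρ).const_mul A)
    refine h1.mono' hkmeas.aestronglyMeasurable ?_
    filter_upwards [hne0] with x hx
    rw [Real.norm_of_nonneg (le_max_left _ _)]
    by_cases h : x ∈ ball (0 : E N) ρ
    · rw [indicator_of_mem h]
      have h2 : -((N : ℝ) - 2) = 2 - (N : ℝ) := by ring
      rw [h2]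
      exact hkle x hx
    · rw [indicator_of_notMem h]
      rw [mem_ball_zero_iff, not_lt] at h
      exact (hk0 x h).le
  have hmcont : Continuous m := by
    have h1 : Continuous fun x : E N => ‖x‖ ^ 2 := continuous_norm.pow 2
    exact (((continuous_const.mul h1).mul (hS''.continuous.comp h1)).add
      (continuous_const.mul (hS'.continuous.comp h1))).neg
  obtain ⟨M, hM⟩ : ∃ M, ∀ y, ‖m y‖ ≤ M := by
    have hcs : HasCompactSupport m := by
      refine HasCompactSupport.intro (isCompact_closedBall (0 : E N) ρ) fun x hx => ?_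
      rw [mem_closedBall_zero_iff, not_le] at hx
      exact hm0 x hx.le
    exact hcs.exists_bound_of_continuous hmcont
  have hlapS : ∀ a y : E N, (Δ (fun z : E N => S (‖z - a‖ ^ 2))) y = -m (y - a) := by
    intro a y
    rw [rad_lap S hS a y]
    simp only [hm, neg_neg]
  refine ⟨k, m, M, hkmeas, hkint, hmcont, fun x => ⟨le_max_left _ _, hM x⟩,
    fun x hx => ⟨hk0 x hx, hm0 x hx⟩, ?_, ?_, ?_⟩
  · intro D hD x hx
    have hx0 : 0 < ‖x‖ := norm_pos_iff.2 hx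
    by_cases h : ‖x‖ ≤ ρ
    · rw [kk_eq hN hx0 (h.trans hD)]
      refine ENNReal.ofReal_le_ofReal ?_
      rw [hk1 x hx, mul_sub]
      have h1 : B ≤ S (‖x‖ ^ 2) := by
        have h2 : S (‖x‖ ^ 2) = X ρ (‖x‖ ^ 2) * B +
            (1 - X ρ (‖x‖ ^ 2)) * (A * ‖x‖ ^ (2 - (N : ℝ))) := by
          simp only [hSdef, sf, pow_eq N hx0.le, hB, hA]
        rw [h2]
        have h3 := hmono _ _ hx0 h
        have h4 := X_le_one ρ (‖x‖ ^ 2)
        have h5 : B ≤ A * ‖x‖ ^ (2 - (N : ℝ)) := h3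
        nlinarith [mul_le_mul_of_nonneg_left h5 (sub_nonneg.2 h4)]
      have h6 : A * D ^ (2 - (N : ℝ)) ≤ B := hmono _ _ hρ hD
      have h7 : 1 / ((N : ℝ) - 2) = A := hA.symm
      linarith
    · rw [hk0 x (not_le.1 h).le]
      simp
  · intro D hD
    refine ⟨(A * (ρ / 2) ^ (2 - (N : ℝ))).toNNReal, fun x hx => ?_⟩
    have hx0 : 0 < ‖x‖ := norm_pos_iff.2 hx
    by_cases h : ‖x‖ ≤ D
    · rw [kk_eq hN hx0 h]
      have h1 : ((A * (ρ / 2) ^ (2 - (N : ℝ))).toNNReal : ℝ≥0∞) =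
          ENNReal.ofReal (A * (ρ / 2) ^ (2 - (N : ℝ))) := rfl
      have hkx0 : 0 ≤ k x := le_max_left _ _
      rw [h1, ← ENNReal.ofReal_add hkx0 (by positivity)]
      refine ENNReal.ofReal_le_ofReal ?_
      rw [hk1 x hx, mul_sub]
      have h2 : S (‖x‖ ^ 2) ≤ A * (ρ / 2) ^ (2 - (N : ℝ)) := by
        have h2 : S (‖x‖ ^ 2) = X ρ (‖x‖ ^ 2) * B +
            (1 - X ρ (‖x‖ ^ 2)) * (A * ‖x‖ ^ (2 - (N : ℝ))) := by
          simp only [hSdef, sf, pow_eq N hx0.le, hB, hA]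
        have h3 : B ≤ A * (ρ / 2) ^ (2 - (N : ℝ)) := hmono _ _ (by positivity) (by linarith)
        rw [h2]
        by_cases hc : ‖x‖ ≤ ρ / 2
        · have h4 : ‖x‖ ^ 2 ≤ ρ ^ 2 / 4 := by
            have := pow_le_pow_left₀ hx0.le hc 2
            have h5 : (ρ / 2) ^ 2 = ρ ^ 2 / 4 := by ring
            linarith
          rw [X_one hρ h4]
          linarith
        · have h4 : A * ‖x‖ ^ (2 - (N : ℝ)) ≤ A * (ρ / 2) ^ (2 - (N : ℝ)) :=
            hmono _ _ (by positivity) (not_le.1 hc).le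
          have h5 := X_nonneg ρ (‖x‖ ^ 2)
          have h6 := X_le_one ρ (‖x‖ ^ 2)
          nlinarith [mul_le_mul_of_nonneg_left h3 h5, mul_le_mul_of_nonneg_left h4 (sub_nonneg.2 h6)]
      have h3 : 0 ≤ A * D ^ (2 - (N : ℝ)) := by
        have : 0 < D := lt_of_lt_of_le hρ hD
        positivity
      have h7 : 1 / ((N : ℝ) - 2) = A := hA.symm
      linarith
    · have h1 : kk N D ‖x‖ = 0 := by
        unfold kk
        rw [Ioo_eq_empty (fun h' => h h'.le)]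
        simp
      rw [h1]
      exact zero_le
  · intro ζ hζ a
    -- replace `ζ` by a function with compact support
    let f : ContDiffBump a := ⟨2 * ρ, 3 * ρ, by positivity, by linarith⟩
    set φ : E N → ℝ := fun x => f x * ζ x with hφdef
    have hφ : ContDiff ℝ ∞ φ := f.contDiff.mul hζ
    have hφs : HasCompactSupport φ := f.hasCompactSupport.mul_right
    have hnear : ∀ x : E N, ‖x - a‖ < 2 * ρ → φ =ᶠ[𝓝 x] ζ := by
      intro x hx
      have h1 : ball a (2 * ρ) ∈ 𝓝 x := isOpen_ball.mem_nhds (by rwa [mem_ball_iff_norm])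
      filter_upwards [h1] with z hz
      have : f z = 1 := f.one_of_mem_closedBall (ball_subset_closedBall hz)
      simp [hφdef, this]
    have e1 : ∫ x, k (x - a) * (Δ ζ) x = ∫ x, k (x - a) * (Δ φ) x := by
      refine integral_congr_ae (ae_of_all _ fun x => ?_)
      change k (x - a) * (Δ ζ) x = k (x - a) * (Δ φ) x
      by_cases h : ρ ≤ ‖x - a‖
      · rw [hk0 _ h, zero_mul, zero_mul]
      · rw [(InnerProductSpace.laplacian_congr_nhds (hnear x (by linarith))).eq_of_nhds]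
    have e2 : ∫ x, m (x - a) * ζ x = ∫ x, m (x - a) * φ x := by
      refine integral_congr_ae (ae_of_all _ fun x => ?_)
      change m (x - a) * ζ x = m (x - a) * φ x
      by_cases h : ρ ≤ ‖x - a‖
      · rw [hm0 _ h, zero_mul, zero_mul]
      · rw [(hnear x (by linarith)).eq_of_nhds]
    have e3 : ζ a = φ a := by
      have := (hnear a (by rw [sub_self, norm_zero]; positivity)).eq_of_nhds
      exact this.symm
    rw [e1, e2, e3]
    have hLc := lap_cont hφ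
    have hLs := lap_supp hφ hφs
    have hLcs : HasCompactSupport (Δ φ) := HasCompactSupport.intro hφs (fun y hy => hLs y hy)
    obtain ⟨M₁, hM₁⟩ : ∃ M, ∀ y, ‖(Δ φ) y‖ ≤ M := hLcs.exists_bound_of_continuous hLc
    have i1 : Integrable fun x => k (x - a) * (Δ φ) x :=
      (hkint.comp_sub_right a).mul_bdd (c := M₁) hLc.aestronglyMeasurable (ae_of_all _ hM₁)
    have hSa := rad_smooth S hS a
    have i2 : Integrable fun x => S (‖x - a‖ ^ 2) * (Δ φ) x :=
      (hSa.continuous.mul hLc).integrable_of_hasCompactSupport hLcs.mul_left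
    have hg : ∫ x, S (‖x - a‖ ^ 2) * (Δ φ) x = -∫ x, m (x - a) * φ x := by
      rw [green' hSa hφ hφs, ← integral_neg]
      refine integral_congr_ae (ae_of_all _ fun x => ?_)
      change (Δ (fun z : E N => S (‖z - a‖ ^ 2))) x * φ x = -(m (x - a) * φ x)
      rw [hlapS a x]
      ring
    have hnea : ∀ᵐ x : E N, x ≠ a := by
      haveI : Nonempty (Fin N) := ⟨⟨0, by omega⟩⟩
      rw [ae_iff]
      simp
    have hsum : A * ∫ x, (newton a x).toReal * (Δ φ) x =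
        (∫ x, k (x - a) * (Δ φ) x) + ∫ x, S (‖x - a‖ ^ 2) * (Δ φ) x := by
      rw [← integral_add i1 i2, ← integral_const_mul]
      refine integral_congr_ae ?_
      filter_upwards [hnea] with x hx
      have h1 := hk1 (x - a) (sub_ne_zero.2 hx)
      have h2 := newton_toReal hN a x hx
      have h3 : -((N : ℝ) - 2) = 2 - (N : ℝ) := by ring
      rw [h3] at h2
      rw [h1, h2]
      ring
    rw [hnl φ hφ hφs a, hg] at hsum
    linarith

end Pool.Agent.Q39.VP.CK3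

namespace Pool.Agent.Q39.VP

theorem t_CK3 : Pool.Agent.Q64.VP.S_CK3 := CK3.main

end Pool.Agent.Q39.VP
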