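import Pool.Agent.Q64.VP.LOW

/-! # VP-EX: existence of the potential of a measure with compact support -/

set_option autoImplicit false

open MeasureTheory Filter Topology Set Metric
open scoped ENNReal NNReal ContDiff Laplacian

namespace Pool.Agent.Q39.VP.EX

open Pool.Agent.Q64.VP (E P kk CK IsT S_HB S_TON S_INT S_EX)
open Pool.Agent.Q64.VP.LOW (U int2 U_int U_bd U_meas key atoms)

theorem main (hb : S_HB) (ton : S_TON) : S_EX := by
  intro N c hN hc hCK Ω K D ν hΩ hΩb hK hKΩ hD hνfin hνK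
  -- the radius
  obtain ⟨ρ, hρ, hρD, hρK⟩ : ∃ ρ : ℝ, 0 < ρ ∧ ρ ≤ D ∧ ∀ x ∉ Ω, ∀ y ∈ K, ρ ≤ ‖x - y‖ := by
    obtain ⟨δ, hδ, hδK⟩ := hK.exists_thickening_subset_open hΩ hKΩ
    refine ⟨min δ D, lt_min hδ hD, min_le_right _ _, fun x hx y hy => ?_⟩
    by_contra h
    apply hx
    apply hδK
    rw [mem_thickening_iff]
    refine ⟨y, hy, ?_⟩
    rw [dist_eq_norm]
    exact lt_of_lt_of_le (not_le.1 h) (min_le_left _ _)
  obtain ⟨k, m, M, hk, hki, hm, hkM, hsupp, hle, hge, hid⟩ := hCK ρ hρ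
  have hM : ∀ x, |m x| ≤ M := fun x => (hkM x).2
  have hM0 : 0 ≤ M := (abs_nonneg _).trans (hM 0)
  have hνae : ∀ᵐ y ∂ν, y ∈ K := by
    rw [ae_iff]
    exact hνK
  have hU0 : ∀ q : E N → ℝ, (∀ x, ρ ≤ ‖x‖ → q x = 0) → ∀ x, x ∉ Ω → U q ν x = 0 := by
    intro q hq x hx
    unfold U
    rw [integral_eq_zero_of_ae]
    filter_upwards [hνae] with y hy
    exact hq _ (hρK x hx y hy)
  have hUk0 := hU0 k fun x hx => (hsupp x hx).1
  have hUm0 := hU0 m fun x hx => (hsupp x hx).2
  have hc' : c ≠ 0 := hc.ne'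
  -- the bounded part
  have hmeasU : Measurable (U m ν) := (U_meas hm ν).measurable
  obtain ⟨v, Mv, hvm, hvM, hvζ⟩ := hb N (by omega) Ω (fun x => c⁻¹ * U m ν x)
    (c⁻¹ * (M * ν.real univ)) hΩ hΩb (hmeasU.const_mul _) (fun x => by
      rw [abs_mul, abs_of_pos (inv_pos.2 hc)]
      exact mul_le_mul_of_nonneg_left (U_bd hM ν x) (inv_pos.2 hc).le)
  have hMv : 0 ≤ Mv := (abs_nonneg _).trans (hvM 0)
  have Iν := U_int hk hki ν
  have hvint : IntegrableOn v Ω := by
    refine Measure.integrableOn_of_bounded hΩb.measure_lt_top.ne hvm.aestronglyMeasurable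
      (M := Mv) (Eventually.of_forall fun x => ?_)
    exact hvM x
  set w : E N → ℝ := fun x => c⁻¹ * U k ν x + v x with hw
  have hwint : IntegrableOn w Ω := (Iν.const_mul c⁻¹).integrableOn.add hvint
  refine ⟨w, c * Mv + Mv, hwint, ?_, ?_⟩
  · intro ζ hζ
    -- a ball which contains the closure of `Ω`
    obtain ⟨R, hR, hΩR⟩ : ∃ R : ℝ, 0 < R ∧ Ω ⊆ ball 0 R := by
      obtain ⟨R, hR⟩ := hΩb.subset_ball (0 : E N)
      exact ⟨max R 1, by positivity, hR.trans (ball_subset_ball (le_max_left _ _))⟩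
    let f : ContDiffBump (0 : E N) := ⟨R, R + 1, hR, by linarith⟩
    set φ : E N → ℝ := fun x => f x * ζ x with hφdef
    have hφ : Helper304Lap.Tst φ := ⟨f.contDiff.mul hζ.1, f.hasCompactSupport.mul_right⟩
    have hnear : ∀ x ∈ Ω, φ =ᶠ[𝓝 x] ζ := by
      intro x hx
      filter_upwards [isOpen_ball.mem_nhds (hΩR hx)] with z hz
      have : f z = 1 := f.one_of_mem_closedBall (ball_subset_closedBall hz)
      simp [hφdef, this]
    have hφζ : ∀ x ∈ Ω, φ x = ζ x := fun x hx => (hnear x hx).eq_of_nhds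
    have hΔζ : ∀ x ∈ Ω, (Δ φ) x = (Δ ζ) x := fun x hx =>
      (InnerProductSpace.laplacian_congr_nhds (hnear x hx)).eq_of_nhds
    have hΔ : (Δ φ) = Helper304Lap.lap φ := funext fun x => Helper304Lap.lap_eq hφ.1 x
    obtain ⟨B, hB0, hB⟩ := hφ.lap.bdd
    have kν := key hk hki hm hM hid ν hφ
    have mb : ∀ {q : E N → ℝ}, IntegrableOn q Ω → IntegrableOn (fun x => q x * (Δ φ) x) Ω := by
      intro q hq
      rw [hΔ]
      exact Integrable.mul_bdd (c := B) hq hφ.lap.cont.aestronglyMeasurable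
        (Eventually.of_forall hB)
    have e0 : ∫ x in Ω, w x * (Δ ζ) x = ∫ x in Ω, w x * (Δ φ) x :=
      setIntegral_congr_fun hΩ.measurableSet fun x hx => by
        change w x * (Δ ζ) x = w x * (Δ φ) x
        rw [hΔζ x hx]
    have e0' : ∫ x in Ω, v x * (Δ ζ) x = ∫ x in Ω, v x * (Δ φ) x :=
      setIntegral_congr_fun hΩ.measurableSet fun x hx => by
        change v x * (Δ ζ) x = v x * (Δ φ) x
        rw [hΔζ x hx]
    have e1 : ∫ x in Ω, w x * (Δ φ) x =
        c⁻¹ * (∫ x in Ω, U k ν x * (Δ φ) x) + ∫ x in Ω, v x * (Δ φ) x := by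
      rw [← integral_const_mul, ← integral_add ((mb Iν.integrableOn).const_mul _) (mb hvint)]
      refine integral_congr_ae (Eventually.of_forall fun x => ?_)
      simp only [hw]
      ring
    have e2 : ∫ x in Ω, U k ν x * (Δ φ) x = ∫ x, U k ν x * (Δ φ) x :=
      setIntegral_eq_integral_of_forall_compl_eq_zero fun x hx => by rw [hUk0 x hx, zero_mul]
    have e3 : ∫ x, U m ν x * φ x = ∫ x in Ω, U m ν x * ζ x := by
      rw [← setIntegral_eq_integral_of_forall_compl_eq_zero (s := Ω)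
        (fun x hx => by rw [hUm0 x hx, zero_mul])]
      refine setIntegral_congr_fun hΩ.measurableSet fun x hx => ?_
      change U m ν x * φ x = U m ν x * ζ x
      rw [hφζ x hx]
    have e4 : ∫ x, φ x ∂ν = ∫ x, ζ x ∂ν := by
      refine integral_congr_ae ?_
      filter_upwards [hνae] with y hy
      exact hφζ y (hKΩ hy)
    have e5 : -(∫ x in Ω, v x * (Δ ζ) x) = c⁻¹ * ∫ x in Ω, U m ν x * ζ x := by
      rw [hvζ ζ hζ, ← integral_const_mul]
      refine integral_congr_ae (Eventually.of_forall fun x => ?_)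
      change c⁻¹ * U m ν x * ζ x = c⁻¹ * (U m ν x * ζ x)
      ring
    rw [e0', ] at e5
    rw [e0, e1, e2, kν, e3, e4]
    have e6 : c⁻¹ * (-c * ∫ x, ζ x ∂ν) = -∫ x, ζ x ∂ν := by
      field_simp
    rw [mul_add, e6]
    linarith
  · have hN' : Nonempty (Fin N) := ⟨⟨0, by omega⟩⟩
    have hnt : Nontrivial (E N) := inferInstance
    filter_upwards [atoms hN ν, (int2 hk hki ν).prod_right_ae] with x hat hiν
    have hU : 0 ≤ U k ν x := integral_nonneg fun y => (hkM _).1
    have hv := abs_le.1 (hvM x)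
    have hcU : 0 ≤ c⁻¹ * U k ν x := mul_nonneg (inv_pos.2 hc).le hU
    have hcM : 0 ≤ c * Mv := mul_nonneg hc.le hMv
    refine ⟨?_, ?_⟩
    · simp only [hw]
      linarith [hv.1]
    · have s2 : ENNReal.ofReal (U k ν x) ≤ P D ν x := by
        rw [(ton N D ν hνfin).1 x]
        have r1 : ENNReal.ofReal (U k ν x) = ∫⁻ y, ENNReal.ofReal (k (x - y)) ∂ν :=
          ofReal_integral_eq_lintegral_ofReal hiν (Eventually.of_forall fun y => (hkM _).1)
        rw [r1]
        refine lintegral_mono_ae ?_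
        have hne : ∀ᵐ y ∂ν, y ≠ x := by
          rw [ae_iff]
          simpa using hat
        filter_upwards [hne] with y hy
        exact hle D hρD _ (sub_ne_zero.2 (Ne.symm hy))
      have s3 : c * w x ≤ U k ν x + (c * Mv + Mv) := by
        have h1 : c * w x = U k ν x + c * v x := by
          simp only [hw]
          field_simp
        rw [h1]
        have h2 : c * v x ≤ c * Mv := mul_le_mul_of_nonneg_left hv.2 hc.le
        linarith
      calc ENNReal.ofReal (c * w x) ≤ ENNReal.ofReal (U k ν x + (c * Mv + Mv)) :=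
            ENNReal.ofReal_le_ofReal s3
        _ ≤ ENNReal.ofReal (U k ν x) + ENNReal.ofReal (c * Mv + Mv) := ENNReal.ofReal_add_le
        _ ≤ P D ν x + ENNReal.ofReal (c * Mv + Mv) := by gcongr

end Pool.Agent.Q39.VP.EX

namespace Pool.Agent.Q39.VP

open Pool.Agent.Q64.VP in
theorem t_EX (hb : S_HB) (ton : S_TON) (_int : S_INT) : S_EX := EX.main hb ton

end Pool.Agent.Q39.VP
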