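import Pool.Agent.Q64.VP.Stm

/-! # VP-INT: the potential is integrable -/

set_option autoImplicit false

open MeasureTheory Filter Topology Set Metric
open scoped ENNReal NNReal

namespace Pool.Agent.Q39.VP.INT

open Pool.Agent.Q64.VP (E P S_INT)

lemma meas_cb {N : ℕ} (σ : Measure (E N)) (hσ : IsFiniteMeasure σ) :
    Measurable fun p : E N × ℝ => σ (closedBall p.1 p.2) := by
  have hset : MeasurableSet {q : (E N × ℝ) × E N | dist q.2 q.1.1 ≤ q.1.2} := by
    apply IsClosed.measurableSet
    exact isClosed_le (by fun_prop) (by fun_prop)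
  have := measurable_measure_prodMk_left (ν := σ) hset
  exact this

lemma ball_int {N : ℕ} (σ : Measure (E N)) (hσ : IsFiniteMeasure σ) (s : ℝ) :
    ∫⁻ x : E N, σ (closedBall x s) = σ univ * volume (closedBall (0 : E N) s) := by
  have hset : MeasurableSet {q : E N × E N | dist q.2 q.1 ≤ s} := by
    apply IsClosed.measurableSet
    exact isClosed_le (by fun_prop) (by fun_prop)
  have h1 : ∫⁻ x : E N, σ (closedBall x s) = (volume.prod σ) {q : E N × E N | dist q.2 q.1 ≤ s} := by
    rw [Measure.prod_apply hset]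
    rfl
  have h2 : (volume.prod σ) {q : E N × E N | dist q.2 q.1 ≤ s} =
      ∫⁻ y : E N, volume (closedBall y s) ∂σ := by
    rw [Measure.prod_apply_symm hset]
    refine lintegral_congr fun y => ?_
    congr 1
    ext x
    simp [dist_comm]
  rw [h1, h2]
  have h3 : ∀ y : E N, volume (closedBall y s) = volume (closedBall (0 : E N) s) := fun y =>
    Measure.addHaar_closedBall_center _ _ _
  simp_rw [h3]
  rw [lintegral_const, mul_comm]

theorem main : S_INT := by
  intro N hN D σ hσ
  unfold P
  have hm1 : Measurable fun p : E N × ℝ =>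
      σ (closedBall p.1 p.2) * ENNReal.ofReal (p.2 ^ (1 - (N : ℝ))) :=
    (meas_cb σ hσ).mul (ENNReal.measurable_ofReal.comp (measurable_snd.pow_const _))
  rw [lintegral_lintegral_swap hm1.aemeasurable]
  have h1 : ∀ s : ℝ, ∫⁻ x : E N, σ (closedBall x s) * ENNReal.ofReal (s ^ (1 - (N : ℝ))) =
      σ univ * volume (closedBall (0 : E N) s) * ENNReal.ofReal (s ^ (1 - (N : ℝ))) := by
    intro s
    rw [lintegral_mul_const'' _ ?_, ball_int σ hσ s]
    exact ((meas_cb σ hσ).comp (measurable_id.prodMk measurable_const)).aemeasurable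
  simp_rw [h1]
  have hfr : Module.finrank ℝ (E N) = N := by simp [E]
  set w : ℝ≥0∞ := volume (ball (0 : E N) 1) with hw
  have hwt : w ≠ ⊤ := measure_ball_lt_top.ne
  have hbound : ∀ s ∈ Ioo (0 : ℝ) D,
      σ univ * volume (closedBall (0 : E N) s) * ENNReal.ofReal (s ^ (1 - (N : ℝ))) ≤
        σ univ * w * ENNReal.ofReal D := by
    intro s hs
    have hs0 : 0 < s := hs.1
    rw [Measure.addHaar_closedBall _ _ hs0.le, hfr]
    have h2 : ENNReal.ofReal (s ^ N) * ENNReal.ofReal (s ^ (1 - (N : ℝ))) = ENNReal.ofReal s := by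
      rw [← ENNReal.ofReal_mul (by positivity)]
      congr 1
      rw [← Real.rpow_natCast s N, ← Real.rpow_add hs0]
      simp
    calc σ univ * (ENNReal.ofReal (s ^ N) * w) * ENNReal.ofReal (s ^ (1 - (N : ℝ)))
        = σ univ * w * (ENNReal.ofReal (s ^ N) * ENNReal.ofReal (s ^ (1 - (N : ℝ)))) := by ring
      _ = σ univ * w * ENNReal.ofReal s := by rw [h2]
      _ ≤ σ univ * w * ENNReal.ofReal D := by
          gcongr
          exact hs.2.le
  calc ∫⁻ s in Ioo 0 D, σ univ * volume (closedBall (0 : E N) s) *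
        ENNReal.ofReal (s ^ (1 - (N : ℝ)))
      ≤ ∫⁻ s in Ioo 0 D, σ univ * w * ENNReal.ofReal D :=
        setLIntegral_mono' measurableSet_Ioo hbound
    _ = σ univ * w * ENNReal.ofReal D * volume (Ioo 0 D) := by
        rw [setLIntegral_const]
    _ < ⊤ := by
        refine ENNReal.mul_lt_top (ENNReal.mul_lt_top (ENNReal.mul_lt_top (measure_lt_top _ _)
          (lt_top_iff_ne_top.2 hwt)) ENNReal.ofReal_lt_top) ?_
        simp

end Pool.Agent.Q39.VP.INT

namespace Pool.Agent.Q39.VP

theorem t_INT : Pool.Agent.Q64.VP.S_INT := INT.main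

end Pool.Agent.Q39.VP
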